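import Pool.Agent.H20.T4.Stm
import Pool.Agent.H9.TC.Basic
import Pool.Agent.H9.TC.CD

/-!
Project TM4 (MP_b6022c_nt), row WIN: the digits in `[2a, V)` cancel in the cube product at an
interior point without near-boundary values.
-/

namespace Pool.Agent.H39.T4

open Finset Pool.Agent.H9.TC Pool.Agent.H20.T4

/-- One window: the product over `η` of the signs of the digits `[u, v)` is `1`. -/
theorem win_factor {kk u v Z : ℕ} {D : ℤ} (P : ℤ → ℤ) (H : Fin kk → ℤ)
    (j : ℕ × (Fin kk × Bool → ℕ)) (n : ℤ) (l : Fin kk) (hj : j ∈ box kk (2 ^ Z))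
    (hs : ∀ η, ∀ δ : ℤ, |δ| ≤ 2 ^ Z →
      small v D (P (n + psi 0 H η j + δ * H l) - P (n + psi 0 H η j)))
    (hn : ∀ η, ¬ near u D (P (n + psi 0 H η j))) :
    ∏ η, TW u v (P (n + psi 0 H η j)) = 1 := by
  refine cd_pair l _ (fun η => TW_mul_self _ _ _) fun η => ?_
  obtain ⟨_, hj2⟩ := cd_box_lt hj
  have a1 : (j.2 (l, !η l) : ℤ) < 2 ^ Z := by exact_mod_cast hj2 (l, !η l)
  have a2 : (j.2 (l, η l) : ℤ) < 2 ^ Z := by exact_mod_cast hj2 (l, η l)
  have he : |(j.2 (l, !η l) : ℤ) - (j.2 (l, η l) : ℤ)| ≤ 2 ^ Z := by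
    rw [abs_le]
    constructor <;> omega
  refine TW_stable (hn η) ?_
  rw [cd_psi_update, ← add_assoc]
  exact hs η _ he

theorem win : WINStmt := by
  intro kk w a V Z g P H j n hj haV hVk _ hs hn
  set lv : ℕ → ℕ := fun l => min V (2 * a + l * w) with hlv
  have hmono : Monotone lv := by
    intro x y hxy
    have h1 : x * w ≤ y * w := Nat.mul_le_mul_right w hxy
    simp only [hlv]
    omega
  have h0 : lv 0 = 2 * a := by
    simp only [hlv]
    omega
  have hk : lv kk = V := by
    simp only [hlv]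
    omega
  have hpt : ∀ x : ℤ, TW 0 V x = TW 0 (2 * a) x * ∏ l ∈ range kk, TW (lv l) (lv (l + 1)) x := by
    intro x
    rw [← TW_levels hmono kk x, h0, hk, TW_split (Nat.zero_le _) haV]
  have hone : ∏ η : Fin kk → Bool, ∏ l ∈ range kk, TW (lv l) (lv (l + 1))
      (P (n + psi 0 H η j)) = 1 := by
    rw [Finset.prod_comm]
    refine Finset.prod_eq_one fun l hl => ?_
    have hl' : l < kk := Finset.mem_range.mp hl
    rcases Nat.lt_or_ge V (2 * a + l * w) with h | h
    · have e1 : lv l = V := by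
        simp only [hlv]
        omega
      have e2 : lv (l + 1) = V := by
        have := hmono (Nat.le_succ l)
        have h3 : lv (l + 1) ≤ V := min_le_left _ _
        simp only [Nat.succ_eq_add_one] at this
        omega
      rw [e1, e2]
      exact Finset.prod_eq_one fun η _ => TW_self _ _
    · have e1 : lv l = 2 * a + l * w := by
        simp only [hlv]
        omega
      rw [e1]
      refine win_factor (D := (2 : ℤ) ^ (2 * a + l * w - g)) P H j n ⟨l, hl'⟩ hj ?_ ?_
      · intro η δ hδ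
        refine small_level (min_le_right _ _) ?_
        exact hs ⟨l, hl'⟩ η δ hδ
      · intro η
        exact hn ⟨l, hl'⟩ h η
  calc ∏ η, TW 0 V (P (n + psi 0 H η j))
      = ∏ η, (TW 0 (2 * a) (P (n + psi 0 H η j)) *
          ∏ l ∈ range kk, TW (lv l) (lv (l + 1)) (P (n + psi 0 H η j))) :=
        Finset.prod_congr rfl fun η _ => hpt _
    _ = ∏ η, TW 0 (2 * a) (P (n + psi 0 H η j)) := by
        rw [Finset.prod_mul_distrib, hone, mul_one]

end Pool.Agent.H39.T4
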