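import Pool.Agent.H20.T4.Stm
import Pool.Agent.H9.TC.Basic

/-!
Project TM4 (MP_b6022c_nt), row MOST, part (C1): in most cells there are few near-boundary points.
-/

namespace Pool.Agent.H39.T4

open Finset Pool.Agent.H9.TC Pool.Agent.H20.T4

/-- First conjunct of `CellGood`. -/
def NearGood {q1 : ℕ} (g M c kk w a V D : ℕ) (ε : ℝ) (d e f g' : Fin q1 → ℤ) (n0 : ℤ) : Prop :=
  ∀ i, ∀ l ≤ kk, 2 * a + l * w ≤ V →
    (cnt3 (2 ^ (400 * w + 1)) (2 ^ (18 * w + 1)) M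
      (fun s x m => near (2 * a + l * w) ((2 : ℤ) ^ (2 * a + l * w - g))
        (qua c (d i) (e i) (f i) (g' i) (n0 + s + D * x + 2 ^ a * m))) : ℝ)
      ≤ ε * (2 ^ (400 * w) * 2 ^ (18 * w) * M)

/-- (C1) near points of most cells. -/
def C1Stmt : Prop :=
  ∀ (q1 c kk C' CR : ℕ) (ε1 ε : ℝ), 1 ≤ c → 2000 ≤ CR → 0 < ε1 → 0 < ε →
    ∀ d e f g' : Fin q1 → ℤ, ∃ g1 : ℕ, ∀ g ≥ g1, ∃ w0 : ℕ, ∀ w ≥ w0, ∀ ν a β M : ℕ,
    a + w = ν → β + 3 * (CR * w) = ν → 10 * (CR * w) ≤ ν → 2 ^ (w - 1) ≤ M → M ≤ 2 ^ w →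
    ∀ Dd : ℕ → ℕ, (∀ b, Dd b ≤ 2 ^ (CR * w)) →
      (cnt (2 ^ a) (fun n0 => ¬ NearGood g M c kk w a (3 * ν + C') (Dd (n0 / 2 ^ β)) ε1
        d e f g' n0) : ℝ) ≤ ε * 2 ^ a

theorem cnt_sum_ite (M : ℕ) (P : ℕ → Prop) :
    cnt M P = ∑ m ∈ range M, (open Classical in if P m then 1 else 0) := by
  classical
  unfold cnt
  rw [Finset.card_filter]

theorem cnt_false (M : ℕ) {P : ℕ → Prop} (h : ∀ m < M, ¬ P m) : cnt M P = 0 := by
  classical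
  rw [cnt_sum_ite]
  refine Finset.sum_eq_zero fun m hm => ?_
  rw [if_neg (h m (Finset.mem_range.mp hm))]

theorem cnt_add (A B : ℕ) (P : ℕ → Prop) :
    cnt (A + B) P = cnt A P + cnt B (fun y => P (A + y)) := by
  classical
  rw [cnt_sum_ite, cnt_sum_ite, cnt_sum_ite, Finset.sum_range_add]

theorem cnt_blocks (K B : ℕ) (S : ℕ → Prop) :
    ∑ b ∈ range K, cnt B (fun y => S (b * B + y)) = cnt (K * B) S := by
  induction K with
  | zero => simp [cnt]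
  | succ K ih => rw [Finset.sum_range_succ, ih, Nat.succ_mul, cnt_add]

theorem cnt_le_of_le {A B : ℕ} (h : A ≤ B) (P : ℕ → Prop) : cnt A P ≤ cnt B P := by
  obtain ⟨k, rfl⟩ := Nat.exists_eq_add_of_le h
  rw [cnt_add]
  exact Nat.le_add_right _ _

/-- The total number of points of `T` in all cells. -/
theorem near_total (hA : AVGStmt) {T : ℕ → Prop} {ν a β A B M R w : ℕ} {Dd : ℕ → ℕ}
    (haν : a + w = ν) (hβ : β ≤ a) (hM : M ≤ 2 ^ w) (hR : ∀ b, A + B * Dd b ≤ R) :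
    ((∑ n0 ∈ range (2 ^ a), cnt3 A B M
      (fun s x m => T (n0 + s + Dd (n0 / 2 ^ β) * x + 2 ^ a * m)) : ℕ) : ℝ) ≤
      A * B * ((cnt (2 ^ ν) T : ℝ) + M * 2 ^ (a - β) * R) := by
  have h1 : ∑ n0 ∈ range (2 ^ a), cnt3 A B M
      (fun s x m => T (n0 + s + Dd (n0 / 2 ^ β) * x + 2 ^ a * m)) =
      ∑ m ∈ range M, ∑ n0 ∈ range (2 ^ a), cnt2 A B
        (fun s x => T (n0 + s + Dd (n0 / 2 ^ β) * x + 2 ^ a * m)) := by
    unfold cnt3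
    rw [Finset.sum_comm]
  rw [h1, Nat.cast_sum]
  have h2 : ∀ m ∈ range M, ((∑ n0 ∈ range (2 ^ a), cnt2 A B
        (fun s x => T (n0 + s + Dd (n0 / 2 ^ β) * x + 2 ^ a * m)) : ℕ) : ℝ) ≤
      A * B * ((cnt (2 ^ a) (fun y => T (m * 2 ^ a + y)) : ℝ) + 2 ^ (a - β) * R) := by
    intro m _
    have h3 := hA a β A B R Dd (fun _ y => T (y + 2 ^ a * m)) hβ hR
    refine h3.trans (le_of_eq ?_)
    rw [Finset.sum_add_distrib, Finset.sum_const, Finset.card_range, nsmul_eq_mul]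
    have h4 : ∑ b ∈ range (2 ^ (a - β)), cnt (2 ^ β) (fun y => T (b * 2 ^ β + y + 2 ^ a * m)) =
        cnt (2 ^ a) (fun y => T (m * 2 ^ a + y)) := by
      have h5 := cnt_blocks (2 ^ (a - β)) (2 ^ β) (fun y => T (y + 2 ^ a * m))
      rw [← pow_add, Nat.sub_add_cancel hβ] at h5
      rw [h5]
      refine cnt_congr fun y _ => ?_
      rw [show y + 2 ^ a * m = m * 2 ^ a + y by ring]
    rw [← h4]
    push_cast
    ring
  refine (Finset.sum_le_sum h2).trans ?_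
  rw [← Finset.mul_sum, Finset.sum_add_distrib, Finset.sum_const, Finset.card_range,
    nsmul_eq_mul]
  have h6 := cnt_blocks M (2 ^ a) T
  have h7 : cnt (M * 2 ^ a) T ≤ cnt (2 ^ ν) T := by
    refine cnt_le_of_le ?_ T
    calc M * 2 ^ a ≤ 2 ^ w * 2 ^ a := Nat.mul_le_mul_right _ hM
      _ = 2 ^ ν := by rw [← pow_add, ← haν, Nat.add_comm]
  have h8 : (∑ m ∈ range M, (cnt (2 ^ a) (fun y => T (m * 2 ^ a + y)) : ℝ)) ≤
      (cnt (2 ^ ν) T : ℝ) := by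
    rw [← Nat.cast_sum, h6]
    exact_mod_cast h7
  have h9 : (0 : ℝ) ≤ (A : ℝ) * B := by positivity
  refine mul_le_mul_of_nonneg_left ?_ h9
  have h10 : (M : ℝ) * (2 ^ (a - β) * R) = M * 2 ^ (a - β) * R := by ring
  linarith

/-- One polynomial, one level. -/
theorem near_one (hA : AVGStmt) {T : ℕ → Prop} {ν a β M w CR : ℕ} {Dd : ℕ → ℕ} {ε1 e1 : ℝ}
    (hε1 : 0 < ε1) (hw : 1 ≤ w) (hCR : 2000 ≤ CR) (haν : a + w = ν)
    (hβ : β + 3 * (CR * w) = ν) (hν : 10 * (CR * w) ≤ ν) (hM1 : 2 ^ (w - 1) ≤ M)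
    (hM : M ≤ 2 ^ w) (hD : ∀ b, Dd b ≤ 2 ^ (CR * w)) (hT : (cnt (2 ^ ν) T : ℝ) ≤ e1 * 2 ^ ν)
    (he1 : 1 ≤ e1 * 2 ^ w) :
    (cnt (2 ^ a) (fun n0 => ¬ ((cnt3 (2 ^ (400 * w + 1)) (2 ^ (18 * w + 1)) M
      (fun s x m => T (n0 + s + Dd (n0 / 2 ^ β) * x + 2 ^ a * m)) : ℝ) ≤
        ε1 * (2 ^ (400 * w) * 2 ^ (18 * w) * M))) : ℝ) * ε1 ≤ 16 * e1 * 2 ^ a := by
  have hCw : 2000 * w ≤ CR * w := Nat.mul_le_mul_right w hCR
  have hβa : β ≤ a := by omega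
  have hR : ∀ b, 2 ^ (400 * w + 1) + 2 ^ (18 * w + 1) * Dd b ≤
      2 ^ (CR * w + 400 * w + 2) := by
    intro b
    have h1 : 2 ^ (18 * w + 1) * Dd b ≤ 2 ^ (18 * w + 1) * 2 ^ (CR * w) :=
      Nat.mul_le_mul_left _ (hD b)
    have h2 : 2 ^ (18 * w + 1) * 2 ^ (CR * w) ≤ 2 ^ (CR * w + 400 * w + 1) := by
      rw [← pow_add]
      exact Nat.pow_le_pow_right (by norm_num) (by omega)
    have h3 : 2 ^ (400 * w + 1) ≤ 2 ^ (CR * w + 400 * w + 1) :=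
      Nat.pow_le_pow_right (by norm_num) (by omega)
    have h4 : 2 ^ (CR * w + 400 * w + 2) = 2 * 2 ^ (CR * w + 400 * w + 1) := by
      rw [← pow_succ']
    omega
  have ht := near_total hA (T := T) (M := M) (Dd := Dd) haν hβa hM hR
  have hM0 : (0 : ℝ) < M := by
    have : 0 < M := lt_of_lt_of_le (by positivity) hM1
    exact_mod_cast this
  have he0 : 0 < e1 := by
    by_contra h
    push Not at h
    have : e1 * 2 ^ w ≤ 0 := mul_nonpos_of_nonpos_of_nonneg h (by positivity)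
    linarith
  -- the boundary term
  have hb : (M : ℝ) * 2 ^ (a - β) * ((2 ^ (CR * w + 400 * w + 2) : ℕ) : ℝ) ≤ e1 * 2 ^ ν := by
    have h1 : M * 2 ^ (a - β) * 2 ^ (CR * w + 400 * w + 2) * 2 ^ w ≤ 2 ^ ν := by
      calc M * 2 ^ (a - β) * 2 ^ (CR * w + 400 * w + 2) * 2 ^ w
          ≤ 2 ^ w * 2 ^ (a - β) * 2 ^ (CR * w + 400 * w + 2) * 2 ^ w := by gcongr
        _ = 2 ^ (w + (a - β) + (CR * w + 400 * w + 2) + w) := by
            rw [← pow_add, ← pow_add, ← pow_add]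
        _ ≤ 2 ^ ν := Nat.pow_le_pow_right (by norm_num) (by omega)
    have h2 : (M : ℝ) * 2 ^ (a - β) * ((2 ^ (CR * w + 400 * w + 2) : ℕ) : ℝ) * 2 ^ w ≤
        2 ^ ν := by
      exact_mod_cast h1
    have h3 : (0 : ℝ) ≤ (M : ℝ) * 2 ^ (a - β) * ((2 ^ (CR * w + 400 * w + 2) : ℕ) : ℝ) := by
      positivity
    calc (M : ℝ) * 2 ^ (a - β) * ((2 ^ (CR * w + 400 * w + 2) : ℕ) : ℝ)
        ≤ (M : ℝ) * 2 ^ (a - β) * ((2 ^ (CR * w + 400 * w + 2) : ℕ) : ℝ) * (e1 * 2 ^ w) :=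
          le_mul_of_one_le_right h3 he1
      _ = e1 * ((M : ℝ) * 2 ^ (a - β) * ((2 ^ (CR * w + 400 * w + 2) : ℕ) : ℝ) * 2 ^ w) := by
          ring
      _ ≤ e1 * 2 ^ ν := mul_le_mul_of_nonneg_left h2 he0.le
  set c0 : ℝ := ε1 * (2 ^ (400 * w) * 2 ^ (18 * w) * M) with hc0
  have hmk := cnt_markov (M := 2 ^ a)
    (P := fun n0 => ¬ ((cnt3 (2 ^ (400 * w + 1)) (2 ^ (18 * w + 1)) M
      (fun s x m => T (n0 + s + Dd (n0 / 2 ^ β) * x + 2 ^ a * m)) : ℝ) ≤ c0))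
    (f := fun n0 => (cnt3 (2 ^ (400 * w + 1)) (2 ^ (18 * w + 1)) M
      (fun s x m => T (n0 + s + Dd (n0 / 2 ^ β) * x + 2 ^ a * m)) : ℝ)) (c := c0)
    (fun m _ => Nat.cast_nonneg _) (fun m _ h => (not_le.mp h).le)
  rw [← Nat.cast_sum] at hmk
  have h1 := hmk.trans ht
  set X : ℝ := (cnt (2 ^ a) (fun n0 => ¬ ((cnt3 (2 ^ (400 * w + 1)) (2 ^ (18 * w + 1)) M
      (fun s x m => T (n0 + s + Dd (n0 / 2 ^ β) * x + 2 ^ a * m)) : ℝ) ≤ c0)) : ℝ) with hX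
  have h2 : c0 * X ≤ (2 ^ (400 * w) * 2 ^ (18 * w)) * (8 * e1 * 2 ^ ν) := by
    refine h1.trans ?_
    have e : (((2 ^ (400 * w + 1) : ℕ) : ℝ) * ((2 ^ (18 * w + 1) : ℕ) : ℝ)) =
        (2 ^ (400 * w) * 2 ^ (18 * w)) * 4 := by
      push_cast
      ring
    rw [e]
    have hpos : (0 : ℝ) ≤ (2 ^ (400 * w) * 2 ^ (18 * w)) * 4 := by positivity
    calc (2 ^ (400 * w) * 2 ^ (18 * w)) * 4 * ((cnt (2 ^ ν) T : ℝ) +
          M * 2 ^ (a - β) * ((2 ^ (CR * w + 400 * w + 2) : ℕ) : ℝ))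
        ≤ (2 ^ (400 * w) * 2 ^ (18 * w)) * 4 * (e1 * 2 ^ ν + e1 * 2 ^ ν) :=
          mul_le_mul_of_nonneg_left (add_le_add hT hb) hpos
      _ = (2 ^ (400 * w) * 2 ^ (18 * w)) * (8 * e1 * 2 ^ ν) := by ring
  have hK : (0 : ℝ) < 2 ^ (400 * w) * 2 ^ (18 * w) := by positivity
  have h3 : ε1 * M * X ≤ 8 * e1 * 2 ^ ν := by
    have h4 : (2 ^ (400 * w) * 2 ^ (18 * w)) * (ε1 * M * X) ≤
        (2 ^ (400 * w) * 2 ^ (18 * w)) * (8 * e1 * 2 ^ ν) := by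
      refine le_trans (le_of_eq ?_) h2
      rw [hc0]
      ring
    exact le_of_mul_le_mul_left h4 hK
  have h5 : (2 : ℝ) ^ ν ≤ 2 * M * 2 ^ a := by
    have h6 : (2 : ℝ) ^ w ≤ 2 * M := by
      have h7 : 2 ^ w = 2 * 2 ^ (w - 1) := by
        rw [← pow_succ']
        congr 1
        omega
      have h8 : 2 ^ w ≤ 2 * M := by omega
      exact_mod_cast h8
    calc (2 : ℝ) ^ ν = 2 ^ w * 2 ^ a := by rw [← haν, pow_add, mul_comm]
      _ ≤ 2 * M * 2 ^ a := by gcongr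
  have h9 : (M : ℝ) * (X * ε1) ≤ M * (16 * e1 * 2 ^ a) := by
    calc (M : ℝ) * (X * ε1) = ε1 * M * X := by ring
      _ ≤ 8 * e1 * 2 ^ ν := h3
      _ ≤ 8 * e1 * (2 * M * 2 ^ a) := by gcongr
      _ = M * (16 * e1 * 2 ^ a) := by ring
  exact le_of_mul_le_mul_left h9 hM0

theorem c1 (hNB : NBStmt) (hA : AVGStmt) : C1Stmt := by
  intro q1 c kk C' CR ε1 ε hc hCR hε1 hε d e f g'
  set K : ℝ := (q1 : ℝ) * (kk + 1) + 1 with hK
  have hKpos : 0 < K := by positivity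
  set e1 : ℝ := ε1 * ε / (16 * K) with he1
  have he1pos : 0 < e1 := by positivity
  choose G0 hG0 using fun i : Fin q1 => hNB c (d i) (e i) (f i) (g' i) C' e1 hc he1pos
  refine ⟨∑ i, G0 i, fun g hg => ?_⟩
  have hgi : ∀ i, G0 i ≤ g := fun i =>
    (Finset.single_le_sum (fun j _ => Nat.zero_le (G0 j)) (Finset.mem_univ i)).trans hg
  choose ν0 hν0 using fun i : Fin q1 => hG0 i g (hgi i)
  obtain ⟨N0, hN0⟩ : ∃ N0 : ℕ, ∀ w ≥ N0, 1 ≤ e1 * 2 ^ w := by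
    obtain ⟨N0, hN0⟩ := pow_unbounded_of_one_lt (1 / e1) (by norm_num : (1 : ℝ) < 2)
    refine ⟨N0, fun w hw => ?_⟩
    have h1 : (2 : ℝ) ^ N0 ≤ 2 ^ w := pow_le_pow_right₀ (by norm_num) hw
    have h2 : 1 / e1 ≤ 2 ^ w := (hN0.le).trans h1
    rw [div_le_iff₀ he1pos] at h2
    linarith
  refine ⟨∑ i, ν0 i + N0 + 1, fun w hw ν a β M haν hβ hν hM1 hM Dd hD => ?_⟩
  have hwν : w ≤ ν := by
    have : 2000 * w ≤ CR * w := Nat.mul_le_mul_right w hCR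
    omega
  have hνi : ∀ i, ν0 i ≤ ν := by
    intro i
    have : ν0 i ≤ ∑ i, ν0 i :=
      Finset.single_le_sum (fun j _ => Nat.zero_le (ν0 j)) (Finset.mem_univ i)
    omega
  have hone : ∀ (i : Fin q1) (l : ℕ), 2 * a + l * w ≤ 3 * ν + C' →
      (cnt (2 ^ a) (fun n0 => ¬ ((cnt3 (2 ^ (400 * w + 1)) (2 ^ (18 * w + 1)) M
        (fun s x m => near (2 * a + l * w) ((2 : ℤ) ^ (2 * a + l * w - g))
          (qua c (d i) (e i) (f i) (g' i)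
            ((n0 : ℤ) + s + (Dd (n0 / 2 ^ β) : ℕ) * x + 2 ^ a * m))) : ℝ) ≤
        ε1 * (2 ^ (400 * w) * 2 ^ (18 * w) * M))) : ℝ) ≤ ε / K * 2 ^ a := by
    intro i l hl
    have hCw : 2000 * w ≤ CR * w := Nat.mul_le_mul_right w hCR
    have h1 := hν0 i ν (hνi i) (2 * a + l * w) (by omega) hl
    have h2 := near_one hA (T := fun n => near (2 * a + l * w) ((2 : ℤ) ^ (2 * a + l * w - g))
      (qua c (d i) (e i) (f i) (g' i) n)) hε1 (by omega) hCR haν hβ hν hM1 hM hD h1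
      (hN0 w (by omega))
    push_cast at h2
    have h3 : ε / K * 2 ^ a * ε1 = 16 * e1 * 2 ^ a := by
      rw [he1]
      field_simp
    rw [← h3] at h2
    exact le_of_mul_le_mul_right h2 hε1
  have hU : cnt (2 ^ a) (fun n0 => ¬ NearGood g M c kk w a (3 * ν + C') (Dd (n0 / 2 ^ β)) ε1
        d e f g' n0) ≤ ∑ i : Fin q1, ∑ l : Fin (kk + 1), cnt (2 ^ a) (fun n0 =>
        2 * a + l * w ≤ 3 * ν + C' ∧ ¬ ((cnt3 (2 ^ (400 * w + 1)) (2 ^ (18 * w + 1)) M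
        (fun s x m => near (2 * a + l * w) ((2 : ℤ) ^ (2 * a + l * w - g))
          (qua c (d i) (e i) (f i) (g' i)
            ((n0 : ℤ) + s + (Dd (n0 / 2 ^ β) : ℕ) * x + 2 ^ a * m))) : ℝ) ≤
        ε1 * (2 ^ (400 * w) * 2 ^ (18 * w) * M))) := by
    refine le_trans ?_ (Finset.sum_le_sum fun i _ => cnt_exists_fin (n := kk + 1) (2 ^ a) _)
    refine le_trans ?_ (cnt_exists_fin (n := q1) (2 ^ a) _)
    refine cnt_mono fun n0 _ h => ?_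
    unfold NearGood at h
    push Not at h
    obtain ⟨i, l, hl, h1, h2⟩ := h
    exact ⟨i, ⟨l, by omega⟩, h1, not_le.mpr h2⟩
  have hU2 : ∀ i : Fin q1, ∀ l : Fin (kk + 1), (cnt (2 ^ a) (fun n0 =>
        2 * a + l * w ≤ 3 * ν + C' ∧ ¬ ((cnt3 (2 ^ (400 * w + 1)) (2 ^ (18 * w + 1)) M
        (fun s x m => near (2 * a + l * w) ((2 : ℤ) ^ (2 * a + l * w - g))
          (qua c (d i) (e i) (f i) (g' i)
            ((n0 : ℤ) + s + (Dd (n0 / 2 ^ β) : ℕ) * x + 2 ^ a * m))) : ℝ) ≤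
        ε1 * (2 ^ (400 * w) * 2 ^ (18 * w) * M))) : ℝ) ≤ ε / K * 2 ^ a := by
    intro i l
    by_cases hl : 2 * a + l * w ≤ 3 * ν + C'
    · refine le_trans ?_ (hone i l hl)
      exact Nat.cast_le.mpr (cnt_mono fun n0 _ h => h.2)
    · rw [cnt_false (2 ^ a) fun n0 _ h => hl h.1]
      have : (0 : ℝ) ≤ ε / K * 2 ^ a := by positivity
      simpa using this
  calc (cnt (2 ^ a) (fun n0 => ¬ NearGood g M c kk w a (3 * ν + C') (Dd (n0 / 2 ^ β)) ε1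
        d e f g' n0) : ℝ)
      ≤ ∑ i : Fin q1, ∑ l : Fin (kk + 1), (cnt (2 ^ a) (fun n0 =>
        2 * a + l * w ≤ 3 * ν + C' ∧ ¬ ((cnt3 (2 ^ (400 * w + 1)) (2 ^ (18 * w + 1)) M
        (fun s x m => near (2 * a + l * w) ((2 : ℤ) ^ (2 * a + l * w - g))
          (qua c (d i) (e i) (f i) (g' i)
            ((n0 : ℤ) + s + (Dd (n0 / 2 ^ β) : ℕ) * x + 2 ^ a * m))) : ℝ) ≤
        ε1 * (2 ^ (400 * w) * 2 ^ (18 * w) * M))) : ℝ) := by
        exact_mod_cast hU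
    _ ≤ ∑ i : Fin q1, ∑ l : Fin (kk + 1), ε / K * 2 ^ a :=
        Finset.sum_le_sum fun i _ => Finset.sum_le_sum fun l _ => hU2 i l
    _ = ((q1 : ℝ) * (kk + 1)) * (ε / K * 2 ^ a) := by
        simp only [Finset.sum_const, Finset.card_univ, Fintype.card_fin, nsmul_eq_mul]
        push_cast
        ring
    _ ≤ K * (ε / K * 2 ^ a) := by
        have : (0 : ℝ) ≤ ε / K * 2 ^ a := by positivity
        refine mul_le_mul_of_nonneg_right ?_ this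
        rw [hK]
        linarith
    _ = ε * 2 ^ a := by
        field_simp

end Pool.Agent.H39.T4
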